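import Mathlib

set_option autoImplicit false

namespace Pool.Agent.Results.MP_0d8d6b_gt.Counter

open Set Filter Topology

def hist {α : Type} (F : ℕ → α) : ℕ → List α
  | 0 => []
  | n + 1 => F n :: hist F n

def Cov {X : Type} [TopologicalSpace X] (P : Set X → Prop) (𝒰 : Set (Set X)) : Prop :=
  (∀ U ∈ 𝒰, IsOpen U) ∧ ⋃₀ 𝒰 = univ ∧ univ ∉ 𝒰 ∧ ∀ K, P K → ∃ U ∈ 𝒰, K ⊆ U

variable {Y : Type} [t : TopologicalSpace Y] [CompactSpace Y] [T2Space Y]

abbrev fine (D : Set Y) : TopologicalSpace Y where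
  IsOpen U := ∀ x ∈ U, ∀ᶠ y in 𝓝 x, (y ∈ D → x ∈ D) → y ∈ U
  isOpen_univ _ _ := .of_forall fun _ _ => trivial
  isOpen_inter _ _ h h' x hx := ((h x hx.1).and (h' x hx.2)).mono fun _ h h' => ⟨h.1 h', h.2 h'⟩
  isOpen_sUnion _ h := fun x ⟨U, h1, h2⟩ => (h U h1 x h2).mono fun _ h h' => ⟨U, h1, h h'⟩

omit [CompactSpace Y] [T2Space Y] in
lemma fine_le (D : Set Y) : fine D ≤ t := fun _ h _ hx => mem_of_superset (h.mem_nhds hx)
  fun _ h _ => h

lemma step {q : ℕ → Y} (k : ℕ) : ∀ (V : ℕ → Set Y → Set Y),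
    (∀ n K, IsClosed K ∧ (K ∩ range q).Finite → IsOpen (V n K) ∧ K ⊆ V n K) →
    ∀ A, IsClosed A ∧ (A ∩ range q).Finite → ∃ K : ℕ → Set Y,
      (∀ n, (IsClosed (K n) ∧ (K n ∩ range q).Finite) ∧ A ⊆ K n) ∧
      ∀ G : Fin k → Y, ∃ n, range G ⊆ V n (K n) := by
  induction k with
  | zero => exact fun V _ A h => ⟨fun _ => A, fun _ => ⟨h, subset_rfl⟩, fun G => ⟨0, by simp⟩⟩
  | succ k ih =>
    intro V hV A hA
    let e := Denumerable.eqv (Option ℕ × ℕ)
    choose K h1 h2 using fun i => ih (fun m => V (e (some i, m))) (fun _ => hV _) (insert (q i) A)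
      ⟨isClosed_singleton.union hA.1, (hA.2.insert (q i)).subset (by grind)⟩
    choose J hJ using fun i => isCompact_univ.elim_finite_subcover
      (fun m => {G : Fin k → Y | range G ⊆ V (e (some i, m)) (K i m)}) (fun m => by
        simp only [range_subset_iff, ofPred_forall]
        exact isOpen_iInter_of_finite fun j => (hV _ _ (h1 i m).1).1.preimage (continuous_apply j))
      fun G _ => mem_iUnion.2 (h2 i G)
    let W := ⋃ i, ⋂ m ∈ J i, V (e (some i, m)) (K i m)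
    have h3 : IsClosed (A ∪ Wᶜ) ∧ ((A ∪ Wᶜ) ∩ range q).Finite :=
      ⟨hA.1.union (isOpen_iUnion fun i => isOpen_biInter_finset fun m _ =>
        (hV _ _ (h1 i m).1).1).isClosed_compl, hA.2.subset fun _ ⟨h, i, e⟩ => ⟨h.resolve_right
          fun h => h (mem_iUnion.2 ⟨i, mem_iInter₂.2 fun m _ =>
            (hV _ _ (h1 i m).1).2 ((h1 i m).2 (Or.inl e.symm))⟩), i, e⟩⟩
    refine ⟨fun n => (e.symm n).1.elim (A ∪ Wᶜ) fun i => K i (e.symm n).2, fun n => ?_,
      fun G => ?_⟩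
    · beta_reduce
      generalize (e.symm n).1 = o
      obtain _ | i := o
      exacts [⟨h3, subset_union_left⟩, ⟨(h1 i _).1, (subset_insert _ _).trans (h1 i _).2⟩]
    by_cases h : ∃ j, G j ∈ W
    · obtain ⟨j, h⟩ := h
      obtain ⟨i, h⟩ := mem_iUnion.1 h
      obtain ⟨m, h4, h5⟩ := mem_iUnion₂.1 (hJ i (mem_univ (G ∘ j.succAbove)))
      refine ⟨e (some i, m), range_subset_iff.2 fun a => ?_⟩
      simp only [e.symm_apply_apply]
      obtain rfl | ⟨b, rfl⟩ := j.eq_self_or_eq_succAbove a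
      exacts [mem_iInter₂.1 h m h4, h5 ⟨b, rfl⟩]
    · refine ⟨e (none, 0), range_subset_iff.2 fun a => ?_⟩
      simp only [e.symm_apply_apply]
      exact (hV _ _ h3).2 (Or.inr fun h' => h ⟨a, h'⟩)

omit [T2Space Y] in
lemma compact_fine {D K : Set Y} (h : IsClosed K ∧ (K ∩ D).Finite) : @IsCompact _ (fine D) K := by
  refine (@isCompact_iff_ultrafilter_le_nhds' _ (fine D) _).2 fun f hf => ?_
  by_cases h1 : D ∈ f
  · obtain ⟨x, h2, rfl⟩ := Ultrafilter.eq_pure_of_finite_mem h.2 (inter_mem hf h1)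
    exact ⟨x, h2.1, @pure_le_nhds _ (fine D) x⟩
  obtain ⟨x, h2, h3⟩ := isCompact_iff_ultrafilter_le_nhds'.1 h.1.isCompact f hf
  refine ⟨x, h2, (@le_nhds_iff _ (fine D) _ _).2 fun U h4 h5 => ?_⟩
  filter_upwards [h3 (h5 x h4), Ultrafilter.compl_mem_iff_notMem.2 h1] with y h6 h7
  exact h6 fun h => (h7 h).elim

lemma nwd {D K O : Set Y} (h1 : Dense D) (h2 : Dense Dᶜ) (hK : @IsCompact _ (fine D) K)
    (h3 : IsOpen O) (h4 : O.Nonempty) : ∃ O', IsOpen O' ∧ O'.Nonempty ∧ closure O' ⊆ O \ K := by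
  have k {S : Set Y} (h : @IsCompact _ (fine D) S) : IsClosed S :=
    (image_id S ▸ @IsCompact.image _ _ (fine D) _ _ _ h
      (continuous_id_of_le (fine_le D))).isClosed
  have h5 := k (@IsCompact.inter_right _ (fine D) _ D hK
    (@IsClosed.mk _ (fine D) _ fun x hx => .of_forall fun _ h h' => hx (h h')))
  obtain ⟨x, hx⟩ : (O \ K).Nonempty := by_contra fun h => by
    obtain ⟨x, h6, h7⟩ := h2.inter_open_nonempty _ h3 h4
    exact h7 (h5.closure_subset (closure_mono (inter_subset_inter_left _ (sdiff_eq_empty.1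
      (not_nonempty_iff_eq_empty.1 h))) (h1.open_subset_closure_inter h3 h6))).2
  obtain ⟨C, h6, h7, h8⟩ := exists_mem_nhds_isClosed_subset ((h3.sdiff (k hK)).mem_nhds hx)
  exact ⟨_, isOpen_interior, ⟨x, mem_interior_iff_mem_nhds.2 h6⟩,
    (closure_minimal interior_subset h7).trans h8⟩

theorem result : ∃ (X : Type) (_ : TopologicalSpace X), T2Space X ∧
    (∃ σ : List (Set X) → Set (Set X), (∀ h, Cov (fun K => IsCompact K ∧ K.Nonempty) (σ h)) ∧
      ∀ U : ℕ → Set X, (∀ n, U n ∈ σ (hist U n)) → ¬ Cov Set.Finite (range U)) ∧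
    ¬ ∃ 𝒰 : ℕ → Set (Set X), (∀ n, Cov (fun K => IsCompact K ∧ K.Nonempty) (𝒰 n)) ∧
      ∀ U : ℕ → Set X, (∀ n, U n ∈ 𝒰 n) → ¬ Cov Set.Finite (range U) := by
  obtain ⟨q, hq⟩ := TopologicalSpace.exists_dense_seq unitInterval
  have hq' : Dense (range q)ᶜ := by
    rw [← iUnion_singleton_eq_range, compl_iUnion]
    exact dense_iInter_of_isOpen (fun _ => isOpen_compl_singleton) fun _ => dense_compl_singleton _
  refine ⟨unitInterval, fine (range q), t2Space_antitone (fine_le _) inferInstance, ?_, fun ⟨𝒰, h1, h2⟩ => ?_⟩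
  · have h1 (O U : Set unitInterval) : ∃ O', (IsOpen O ∧ O.Nonempty → IsOpen O' ∧ O'.Nonempty) ∧
        ((∃ W, IsOpen W ∧ W.Nonempty ∧ closure W ⊆ O \ U) → closure O' ⊆ O \ U) := by
      by_cases h : ∃ W, IsOpen W ∧ W.Nonempty ∧ closure W ⊆ O \ U
      · exact h.imp fun _ h => ⟨fun _ => ⟨h.1, h.2.1⟩, fun _ => h.2.2⟩
      · exact ⟨O, id, fun h' => (h h').elim⟩
    choose g h1 h2 using h1
    let O : List (Set unitInterval) → Set unitInterval := List.rec univ fun U _ W => g W U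
    have h3 (l) : IsOpen (O l) ∧ (O l).Nonempty := by
      induction l with
      | nil => exact ⟨isOpen_univ, univ_nonempty⟩
      | cons U l ih => exact h1 _ _ ih
    refine ⟨fun l => {U | IsOpen U ∧ ∃ W, IsOpen W ∧ W.Nonempty ∧ closure W ⊆ O l \ U}, fun l => ?_,
      fun U h4 h5 => ?_⟩
    · have h4 {K} (hK : @IsCompact _ (fine (range q)) K) : ∃ U ∈ {U | IsOpen U ∧ ∃ W, IsOpen W ∧
          W.Nonempty ∧ closure W ⊆ O l \ U}, K ⊆ U :=
        let ⟨W, h4, h5, h6⟩ := nwd hq hq' hK (h3 l).1 (h3 l).2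
        ⟨_, ⟨isClosed_closure.isOpen_compl, W, h4, h5, fun _ h => ⟨(h6 h).1, fun h' => h' h⟩⟩,
          fun _ h h' => (h6 h').2 h⟩
      exact ⟨fun U h => fine_le _ _ h.1, eq_univ_of_forall fun x =>
        (h4 (@isCompact_singleton _ (fine _) x)).imp fun _ h => ⟨h.1, h.2 rfl⟩,
        fun ⟨_, W, _, ⟨x, h⟩, h'⟩ => (h' (subset_closure h)).2 trivial, fun K h => h4 h.1⟩
    obtain ⟨x, hx⟩ := IsCompact.nonempty_iInter_of_sequence_nonempty_isCompact_isClosed
      (fun n => closure (O (hist U (n + 1)))) (fun n => (h2 _ _ (h4 (n + 1)).2).trans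
        (sdiff_subset.trans subset_closure)) (fun n => (h3 (hist U (n + 1))).2.closure)
      isClosed_closure.isCompact fun _ => isClosed_closure
    obtain ⟨_, ⟨n, rfl⟩, h⟩ := eq_univ_iff_forall.1 h5.2.1 x
    exact (h2 _ _ (h4 n).2 (mem_iInter.1 hx n)).2 h
  have h3 (n : ℕ) (K : Set unitInterval) : ∃ U ∈ 𝒰 n, IsClosed K ∧ (K ∩ range q).Finite → K ⊆ U := by
    by_cases h : IsClosed K ∧ (K ∩ range q).Finite
    · exact ((h1 n).2.2.2 (insert 0 K) ⟨compact_fine ⟨isClosed_singleton.union h.1,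
        (h.2.insert 0).subset (by grind)⟩, insert_nonempty _ _⟩).imp fun _ h =>
          ⟨h.1, fun _ => (subset_insert _ _).trans h.2⟩
    · exact (eq_univ_iff_forall.1 (h1 n).2.1 0).imp fun _ h' => ⟨h'.1, fun h' => (h h').elim⟩
  choose u h3 h4 using h3
  let e := Denumerable.eqv ((ℕ × ℕ) × ℕ)
  choose K h5 h6 using fun i : ℕ × ℕ => step (q := q) i.1
    (fun m K => interior (range q ∪ u (e (i, m)) K)) (fun m K h => ⟨isOpen_interior, fun x hx =>
      mem_interior_iff_mem_nhds.2 (((h1 _).1 _ (h3 _ K) x (h4 _ K h hx)).mono fun y h =>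
        by_contra fun h' => h' (Or.inr (h fun h => (h' (Or.inl h)).elim)))⟩) (q '' Iio i.2)
    ⟨((finite_Iio _).image q).isClosed, ((finite_Iio _).image q).subset inter_subset_left⟩
  have h7 (F : Set unitInterval) (hF : F.Finite) :
      ∃ U ∈ range fun n => u n (K (e.symm n).1 (e.symm n).2), F ⊆ U := by
    obtain ⟨k, G, -, rfl⟩ := hF.fin_param
    obtain ⟨j, hj⟩ := (eventually_all.2 fun a => show ∀ᶠ j in atTop, G a ∈ range q →
      G a ∈ q '' Iio j from by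
        by_cases h : G a ∈ range q
        · exact h.elim fun i h => (eventually_gt_atTop i).mono fun j hj _ => ⟨i, hj, h⟩
        · exact .of_forall fun _ h' => (h h').elim).exists
    obtain ⟨m, hm⟩ := h6 (k, j) G
    refine ⟨_, ⟨e ((k, j), m), rfl⟩, range_subset_iff.2 fun a => ?_⟩
    simp only [e.symm_apply_apply]
    exact (interior_subset (hm ⟨a, rfl⟩)).elim (fun h => h4 _ _ (h5 _ m).1
      ((h5 _ m).2 (hj a h))) id
  exact h2 _ (fun n => h3 n _) ⟨forall_mem_range.2 fun n => (h1 n).1 _ (h3 n _), eq_univ_of_forall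
    fun x => (h7 _ (finite_singleton x)).imp fun _ h => ⟨h.1, h.2 rfl⟩,
    fun ⟨n, h⟩ => (h1 n).2.2.1 (h ▸ h3 n _), h7⟩

end Pool.Agent.Results.MP_0d8d6b_gt.Counter
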